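import Pool.Agent.TH152.AC.Fin

/-!
Pairs on generically finite covers of projective space over an arrangement which is not reducible
(helper766, with the library of helper152).
-/

set_option autoImplicit false

open FF Pool.Agent.W603.LV Pool.Agent.W602.GT Pool.Agent.W602.Cov Pool.Agent.W602.Cov.G
open Pool.Agent.W168.CG.PGR Pool.Agent.TH152.AC

namespace Pool.Agent.TH766.AP

variable {n q : ℕ} {ℓ : Fin q → Form n} {K : Type} [Field K] [Algebra ℂ K]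

/-- `ω` is a section of `N (K_X + Δ)`; `X` is the set of the prime divisors of the model, `δ P` is the
coefficient of `Δ` at `P`. -/
def PairSec (n : ℕ) (X : Set (Place ℂ K)) (δ : Place ℂ K → ℝ) (N : ℕ)
    (ω : (Fin n → Derivation ℂ K K) → K) : Prop :=
  IsPluri N ω ∧ ∀ P ∈ X, Divisorial n P → ∀ D : Fin n → Derivation ℂ K K,
    (∀ i, DerReg P (D i)) → ω D = 0 ∨ -(N * δ P) ≤ (P.ord (ω D) : ℝ)

/-- the multiplicities over the arrangement -/
def HighPair (ℓ : Fin q → Form n) (x : Fin (n + 1) → K) (X : Set (Place ℂ K))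
    (δ : Place ℂ K → ℝ) (s : ℝ) : Prop :=
  ∀ P ∈ X, Divisorial n P → ∀ (a : ℤ) (v : Fin q → ℕ),
    (∀ φ : Form n, lf φ x = 0 ∨ a ≤ P.ord (lf φ x)) →
    (∃ φ : Form n, lf φ x ≠ 0 ∧ P.ord (lf φ x) = a) →
    (∀ i, P.ord (lf (ℓ i) x) = a + v i) → v ≠ 0 → ∃ i, s * (1 - δ P) ≤ v i

theorem high_at {x : Fin (n + 1) → K} {X : Set (Place ℂ K)} {δ : Place ℂ K → ℝ} {s : ℝ}
    (h : HighPair ℓ x X δ s) (hspan : Submodule.span ℂ (Set.range ℓ) = ⊤)
    (hlx : ∀ i, lf (ℓ i) x ≠ 0) {P : Place ℂ K} (hPX : P ∈ X) (hP : Divisorial n P) {a : ℤ}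
    {v : Fin q → ℕ} (hord : ∀ i, P.ord (lf (ℓ i) x) = a + v i) (hv : v ≠ 0)
    (hsp : Submodule.span ℂ (ℓ '' {i | v i ≠ 0}) ≠ ⊤) : ∃ i, s * (1 - δ P) ≤ v i := by
  obtain ⟨i, hi⟩ : ∃ i, v i = 0 := by
    by_contra hcon
    push Not at hcon
    apply hsp
    rw [← hspan]
    congr 1
    ext φ
    constructor
    · rintro ⟨i, -, rfl⟩
      exact ⟨i, rfl⟩
    · rintro ⟨i, rfl⟩
      exact ⟨i, hcon i, rfl⟩
  refine h P hPX hP a v (fun φ => ?_) ⟨ℓ i, hlx i, ?_⟩ hord hv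
  · refine Pool.Agent.W168.CG.PGR.ge_span P a (Set.range ℓ) x ?_ φ (by rw [hspan]; trivial)
    rintro _ ⟨i, rfl⟩
    right
    rw [hord i]
    have : (0 : ℤ) ≤ v i := by positivity
    linarith
  · rw [hord i, hi]
    simp

/-- **Nonvanishing.** -/
theorem nonvanishing (hn : 1 ≤ n) (hℓ : ∀ i, ℓ i ≠ 0) (hr : ¬ Reducible ℓ)
    {x : Fin (n + 1) → K} (hx0 : x 0 ≠ 0)
    (hbas : IsTranscendenceBasis ℂ (fun j : Fin n => x j.succ / x 0)) (X : Set (Place ℂ K))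
    (δ : Place ℂ K → ℝ) (hδ : ∀ P ∈ X, 0 ≤ δ P) (h : HighPair ℓ x X δ (n + 2)) :
    ∃ N : ℕ, 0 < N ∧ ∃ ω : (Fin n → Derivation ℂ K K) → K, PairSec n X δ N ω ∧ ∃ D, ω D ≠ 0 := by
  have hlx : ∀ i, lf (ℓ i) x ≠ 0 := fun i => lf_ne hx0 hbas.1 (hℓ i)
  have hspan := Pool.Agent.W392.CG.span_top hn ℓ hr
  obtain ⟨B0⟩ := exists_bases hspan
  have i0 : Fin q := B0.1 0
  obtain ⟨p, hp0, hp⟩ := weights hn hℓ hr
  obtain ⟨D, hD⟩ := (bwb n K).2.2 x hx0 hbas
  refine ⟨1 * ∑ B, p B, by omega, pf ℓ x p 1, ⟨pf_pluri x p 1, ?_⟩, D, ?_⟩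
  · intro P hPX hPd D hD
    obtain ⟨a, v, hv, -, c, hc, hc2⟩ :=
      pf_ord' p hp hspan 1 hlx P i0 D 1 (reg1 P hD).1 (reg1 P hD).2
    rcases hc with hc | hc
    · exact Or.inl hc
    right
    have hc' : (c : ℝ) ≤ P.ord (pf ℓ x p 1 D) := by exact_mod_cast hc
    refine le_trans ?_ hc'
    have hN0 : (0 : ℝ) ≤ ((1 * ∑ B, p B : ℕ) : ℝ) := Nat.cast_nonneg _
    rcases hc2 with ⟨-, h0⟩ | ⟨hv0, hsp, h1⟩
    · have h2 : (0 : ℝ) ≤ c := by exact_mod_cast h0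
      have h3 := mul_nonneg hN0 (hδ P hPX)
      linarith
    · obtain ⟨i, hi⟩ := high_at h hspan hlx hPX hPd hv hv0 hsp
      have h2 := h1 i
      have h3 : ((1 : ℝ) * (∑ B, (p B : ℝ)) * v i) ≤ (n + 2) * (c + 1 * (1 * ∑ B, (p B : ℝ))) := by
        exact_mod_cast h2
      have hN : (0 : ℝ) ≤ ∑ B, (p B : ℝ) := by positivity
      have h4 := mul_le_mul_of_nonneg_left hi hN
      push_cast
      have hpos : (0 : ℝ) < (n : ℝ) + 2 := by positivity
      refine le_of_mul_le_mul_left ?_ hpos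
      nlinarith
  · unfold pf
    exact div_ne_zero (pow_ne_zero _ hD) (den_ne hlx p 1)

/-- **Bigness.** -/
theorem big (hn : 1 ≤ n) (hℓ : ∀ i, ℓ i ≠ 0) (hr : ¬ Reducible ℓ)
    {x : Fin (n + 1) → K} (hx0 : x 0 ≠ 0)
    (hbas : IsTranscendenceBasis ℂ (fun j : Fin n => x j.succ / x 0)) (X : Set (Place ℂ K))
    (δ : Place ℂ K → ℝ) (hδ : ∀ P ∈ X, 0 ≤ δ P) (h : HighPair ℓ x X δ (n + 3)) :
    ∃ N : ℕ, 0 < N ∧ ∃ ω : Fin (n + 1) → (Fin n → Derivation ℂ K K) → K,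
      (∀ j, PairSec n X δ N (ω j)) ∧
      ∃ D, ω 0 D ≠ 0 ∧ AlgebraicIndependent ℂ (fun i : Fin n => ω i.succ D / ω 0 D) := by
  have hlx : ∀ i, lf (ℓ i) x ≠ 0 := fun i => lf_ne hx0 hbas.1 (hℓ i)
  have hspan := Pool.Agent.W392.CG.span_top hn ℓ hr
  obtain ⟨B0⟩ := exists_bases hspan
  have i0 : Fin q := B0.1 0
  obtain ⟨p, hp0, hp⟩ := weights hn hℓ hr
  obtain ⟨D, hD⟩ := (bwb n K).2.2 x hx0 hbas
  obtain ⟨t, ht⟩ : ∃ t : ℕ, t = (n + 2) * (n + 3) := ⟨_, rfl⟩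
  have htR : (t : ℝ) = ((n : ℝ) + 2) * (n + 3) := by
    rw [ht]
    push_cast
    ring
  have hN1 : (1 : ℝ) ≤ ∑ B, (p B : ℝ) := by exact_mod_cast hp0
  refine ⟨t * ∑ B, p B, ?_, fun j D => pf ℓ x p t D * x j / lf (ℓ i0) x, ?_, D, ?_, ?_⟩
  · rw [ht]
    positivity
  · intro j
    refine ⟨?_, ?_⟩
    · intro A D'
      change pf ℓ x p t _ * x j / lf (ℓ i0) x = _
      rw [pf_pluri x p t A D']
      ring
    · intro P hPX hPd D hD
      obtain ⟨a, v, hv, hxj, c, hc, hc2⟩ :=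
        pf_ord' p hp hspan t hlx P i0 D 1 (reg1 P hD).1 (reg1 P hD).2
      have h5 := ge_div (hlx i0) (hc.mul (hxj j))
      rw [hv i0] at h5
      rcases h5 with h5 | h5
      · exact Or.inl h5
      right
      have h6 : ((c + a - (a + v i0) : ℤ) : ℝ) ≤ P.ord (pf ℓ x p t D * x j / lf (ℓ i0) x) := by
        exact_mod_cast h5
      refine le_trans ?_ h6
      push_cast
      have hA0 : (0 : ℝ) ≤ (t : ℝ) * ∑ B, (p B : ℝ) := by positivity
      rcases hc2 with ⟨hv0, h0⟩ | ⟨hv0, hsp, h1⟩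
      · have h2 : (0 : ℝ) ≤ c := by exact_mod_cast h0
        have h3 := mul_nonneg hA0 (hδ P hPX)
        rw [hv0]
        simp only [Pi.zero_apply, Nat.cast_zero]
        linarith
      · obtain ⟨i, hi⟩ := high_at h hspan hlx hPX hPd hv hv0 hsp
        obtain ⟨A, hA⟩ : ∃ A : ℝ, A = t * ∑ B, (p B : ℝ) := ⟨_, rfl⟩
        have hAge : ((n : ℝ) + 2) * (n + 3) ≤ A := by
          rw [hA, ← htR]
          exact le_mul_of_one_le_right (by positivity) hN1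
        have e1 : ∀ i, A * v i ≤ (n + 2) * (c + A) := by
          intro i
          have h2 := h1 i
          have h3 : ((t : ℝ) * (∑ B, (p B : ℝ)) * v i) ≤
              (n + 2) * (c + 1 * (t * ∑ B, (p B : ℝ))) := by
            exact_mod_cast h2
          rw [hA]
          linarith
        obtain ⟨M, hM1, hM2, hM3⟩ : ∃ M : ℝ, (v i : ℝ) ≤ M ∧ (v i0 : ℝ) ≤ M ∧
            A * M ≤ (n + 2) * (c + A) := by
          rcases le_total (v i : ℝ) (v i0) with h7 | h7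
          · exact ⟨v i0, h7, le_rfl, e1 i0⟩
          · exact ⟨v i, le_rfl, h7, e1 i⟩
        have hpos : (0 : ℝ) < (n : ℝ) + 2 := by positivity
        have hpos3 : (0 : ℝ) < (n : ℝ) + 3 := by positivity
        have hA0' : (0 : ℝ) ≤ A := le_trans (by positivity) hAge
        have hM0 : (0 : ℝ) ≤ M := le_trans (Nat.cast_nonneg _) hM1
        -- `A (1 - δ) ≤ A M / (n + 3)`
        have e2 : (n + 3) * (A * (1 - δ P)) ≤ A * M := by
          have h7 : ((n : ℝ) + 3) * (1 - δ P) ≤ M := le_trans hi hM1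
          have h8 := mul_le_mul_of_nonneg_left h7 hA0'
          linarith
        have e3 : ((n : ℝ) + 2) * (n + 3) * M ≤ A * M := mul_le_mul_of_nonneg_right hAge hM0
        rw [← hA]
        have e4 : (v i0 : ℝ) ≤ c + A * δ P := by
          have hpp : (0 : ℝ) < ((n : ℝ) + 2) * (n + 3) := mul_pos hpos hpos3
          refine le_trans hM2 ?_
          refine le_of_mul_le_mul_left ?_ hpp
          have h9 : (n + 3) * (A * M) ≤ (n + 3) * ((n + 2) * (c + A)) :=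
            mul_le_mul_of_nonneg_left hM3 hpos3.le
          have h10 : (n + 2) * ((n + 3) * (A * (1 - δ P))) ≤ (n + 2) * (A * M) :=
            mul_le_mul_of_nonneg_left e2 hpos.le
          nlinarith
        linarith
  · change pf ℓ x p t D * x 0 / lf (ℓ i0) x ≠ 0
    refine div_ne_zero (mul_ne_zero ?_ hx0) (hlx i0)
    unfold pf
    exact div_ne_zero (pow_ne_zero _ hD) (den_ne hlx p t)
  · have hpf : pf ℓ x p t D ≠ 0 := by
      unfold pf
      exact div_ne_zero (pow_ne_zero _ hD) (den_ne hlx p t)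
    have h0 := hlx i0
    have e : (fun i : Fin n => pf ℓ x p t D * x i.succ / lf (ℓ i0) x /
        (pf ℓ x p t D * x 0 / lf (ℓ i0) x)) = fun i : Fin n => x i.succ / x 0 := by
      funext i
      field_simp
    change AlgebraicIndependent ℂ (fun i : Fin n => pf ℓ x p t D * x i.succ / lf (ℓ i0) x /
        (pf ℓ x p t D * x 0 / lf (ℓ i0) x))
    rw [e]
    exact hbas.1

end Pool.Agent.TH766.AP
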